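import Mathlib

/-!
# Undecidability of finite axiomatisability of inclusive varieties: basic notions

Type systems, closed legal structures, template semigroups (normal forms of words over colours).
See `Paper.md` in this directory.
-/

set_option autoImplicit false

namespace Pool.Agent.Lib.MP_226ef1_lc.U

universe u v w

/-! ### Products of words -/

/-- product of a word over the semigroup `T`, computed in `WithOne T` (so that the empty word
has the value `1`). -/
def prd {T : Type u} [Semigroup T] (l : List T) : WithOne T :=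
  (l.map fun t => (t : WithOne T)).prod

section prd
variable {T : Type u} [Semigroup T]

@[simp] theorem prd_nil : prd ([] : List T) = 1 := rfl

@[simp] theorem prd_cons (t : T) (l : List T) : prd (t :: l) = (t : WithOne T) * prd l := by
  simp [prd]

@[simp] theorem prd_append (l l' : List T) : prd (l ++ l') = prd l * prd l' := by
  simp [prd]

theorem prd_singleton (t : T) : prd [t] = (t : WithOne T) := by simp

end prd

/-! ### Type systems and closed legal structures -/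

/-- A type system. The set `J` of types is `{k | inJ k = true}`. -/
structure TS where
  /-- all types are smaller than `bound` -/
  bound : ℕ
  inJ : ℕ → Bool
  star : ℕ → ℕ
  succ : ℕ → Bool
  legal : ℕ → ℕ → ℕ → Bool

/-- Well-formed type systems. -/
structure TS.WF (J : TS) : Prop where
  lt : ∀ k, J.inJ k = true → k < J.bound
  star_inJ : ∀ k, J.inJ k = true → J.inJ (J.star k) = true
  star_star : ∀ k, J.inJ k = true → J.star (J.star k) = k

/-- the number of hubs that encodes a type (the number `1` is used for `x o x`). -/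
def TS.p (_J : TS) (k : ℕ) : ℕ := k + 2

/-- the length bound `l` -/
def TS.L (J : TS) : ℕ := 8 * (J.bound + 3)

/-- closed legal structures -/
structure CLS (J : TS) {V : Type u} (ty : V → V → ℕ) : Prop where
  mem : ∀ x y, x ≠ y → J.inJ (ty x y) = true
  star : ∀ x y, x ≠ y → ty y x = J.star (ty x y)
  legal : ∀ x y z, x ≠ y → y ≠ z → z ≠ x → J.legal (ty x y) (ty y z) (ty z x) = true
  succ : ∀ x, ∃ y, y ≠ x ∧ J.succ (ty x y) = true

/-- irreducibility: every nonempty proper subset has an element without successor in it -/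
def Irred (J : TS) {V : Type u} (ty : V → V → ℕ) : Prop :=
  ∀ X : Set V, X.Nonempty → X ≠ Set.univ → ∃ x ∈ X, ∀ y ∈ X, y ≠ x → J.succ (ty x y) = false

/-! ### Templates -/

/-- A template. Colours are natural numbers; `0` is the colour of the zero element, `1` and `2`
are used in the normal forms of long elements. -/
structure Tm where
  len : ℕ
  cols : ℕ → Prop
  seeds : List ℕ
  bad : List ℕ → Prop

/-- Well-formed templates. -/
structure Tm.WF (τ : Tm) : Prop where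
  cols_ge : ∀ c, τ.cols c → 3 ≤ c
  seeds_cols : ∀ c ∈ τ.seeds, τ.cols c
  seeds_ne : τ.seeds ≠ []
  seeds_le : τ.seeds.length ≤ 5
  bad_ge : ∀ w, τ.bad w → 2 ≤ w.length
  bad_le : ∀ w, τ.bad w → w.length ≤ τ.len
  bad_even : ∀ w, τ.bad w → w.sum % 2 = 0
  bad_full : ∀ w, τ.bad w → (∀ c ∈ τ.seeds, c ∈ w) ∨ w.length = τ.len
  len_ge : 8 ≤ τ.len

/-- free words -/
def Tm.Free (τ : Tm) (w : List ℕ) : Prop :=
  w ≠ [] ∧ w.length ≤ τ.len ∧ (∀ c ∈ w, τ.cols c) ∧ ∀ s, s <:+: w → ¬ τ.bad s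

/-- seed content -/
def Tm.sd (τ : Tm) (w : List ℕ) : List ℕ := τ.seeds.filter (· ∈ w)

open Classical in
/-- normal forms: the elements of the template semigroup are the nonempty words `w` with
`nf w = w`, the product of `x` and `y` is `nf (x ++ y)`. -/
noncomputable def Tm.nf (τ : Tm) (w : List ℕ) : List ℕ :=
  if 0 ∈ w then [0] else if τ.Free w then w else (2 - (w.sum + (τ.sd w).sum) % 2) :: τ.sd w

theorem Tm.nf_zero {τ : Tm} {w : List ℕ} (h : 0 ∈ w) : τ.nf w = [0] := by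
  simp [Tm.nf, h]

theorem Tm.nf_free {τ : Tm} {w : List ℕ} (h0 : 0 ∉ w) (h : τ.Free w) : τ.nf w = w := by
  simp [Tm.nf, h0, h]

theorem Tm.nf_long {τ : Tm} {w : List ℕ} (h0 : 0 ∉ w) (h : ¬ τ.Free w) :
    τ.nf w = (2 - (w.sum + (τ.sd w).sum) % 2) :: τ.sd w := by
  simp [Tm.nf, h0, h]

theorem Tm.Free.zero_notMem {τ : Tm} (hτ : τ.WF) {w : List ℕ} (h : τ.Free w) : 0 ∉ w := by
  intro h0
  have := hτ.cols_ge 0 (h.2.2.1 0 h0)
  omega

theorem Tm.Free.of_inf {τ : Tm} {w s : List ℕ} (h : τ.Free w) (hs : s <:+: w) (h0 : s ≠ []) :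
    τ.Free s :=
  ⟨h0, hs.length_le.trans h.2.1, fun c hc => h.2.2.1 c (hs.subset hc),
    fun t ht => h.2.2.2 t (ht.trans hs)⟩

theorem Tm.mem_sd {τ : Tm} {w : List ℕ} {c : ℕ} : c ∈ τ.sd w ↔ c ∈ τ.seeds ∧ c ∈ w := by
  simp [Tm.sd]

theorem Tm.sd_congr {τ : Tm} {w w' : List ℕ} (h : ∀ c ∈ τ.seeds, (c ∈ w ↔ c ∈ w')) :
    τ.sd w = τ.sd w' := by
  unfold Tm.sd
  refine List.filter_congr fun c hc => ?_
  simp [h c hc]

/-- equality of long values -/
theorem Tm.nf_eq_of_long {τ : Tm} {s s' : List ℕ} (h0 : 0 ∉ s) (h0' : 0 ∉ s')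
    (hF : ¬ τ.Free s) (hF' : ¬ τ.Free s') (hsd : ∀ c ∈ τ.seeds, (c ∈ s ↔ c ∈ s'))
    (hp : s.sum % 2 = s'.sum % 2) : τ.nf s = τ.nf s' := by
  rw [Tm.nf_long h0 hF, Tm.nf_long h0' hF', Tm.sd_congr hsd]
  congr 2
  omega

/-- what equality of normal forms means -/
theorem Tm.of_nf_eq {τ : Tm} (hτ : τ.WF) {s s' : List ℕ} (hs : s ≠ []) (hs' : s' ≠ [])
    (h : τ.nf s = τ.nf s') :
    (0 ∈ s ∧ 0 ∈ s') ∨ (0 ∉ s ∧ 0 ∉ s' ∧ τ.Free s ∧ s = s') ∨
      (0 ∉ s ∧ 0 ∉ s' ∧ ¬ τ.Free s ∧ ¬ τ.Free s' ∧ (∀ c ∈ τ.seeds, (c ∈ s ↔ c ∈ s')) ∧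
        s.sum % 2 = s'.sum % 2) := by
  by_cases h0 : 0 ∈ s
  · left
    refine ⟨h0, ?_⟩
    by_contra h0'
    rw [Tm.nf_zero h0] at h
    by_cases hF' : τ.Free s'
    · rw [Tm.nf_free h0' hF'] at h
      rw [← h] at h0'
      simp at h0'
    · rw [Tm.nf_long h0' hF'] at h
      have := (List.cons.inj h).1
      omega
  · by_cases h0' : 0 ∈ s'
    · exfalso
      rw [Tm.nf_zero h0'] at h
      by_cases hF : τ.Free s
      · rw [Tm.nf_free h0 hF] at h
        rw [h] at h0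
        simp at h0
      · rw [Tm.nf_long h0 hF] at h
        have := (List.cons.inj h).1
        omega
    · right
      by_cases hF : τ.Free s
      · rw [Tm.nf_free h0 hF] at h
        by_cases hF' : τ.Free s'
        · rw [Tm.nf_free h0' hF'] at h
          exact Or.inl ⟨h0, h0', hF, h⟩
        · rw [Tm.nf_long h0' hF'] at h
          exfalso
          have h1 : (2 - (s'.sum + (τ.sd s').sum) % 2) ∈ s := by rw [h]; simp
          have h2 := hτ.cols_ge _ (hF.2.2.1 _ h1)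
          omega
      · rw [Tm.nf_long h0 hF] at h
        by_cases hF' : τ.Free s'
        · rw [Tm.nf_free h0' hF'] at h
          exfalso
          have h1 : (2 - (s.sum + (τ.sd s).sum) % 2) ∈ s' := by rw [← h]; simp
          have h2 := hτ.cols_ge _ (hF'.2.2.1 _ h1)
          omega
        · rw [Tm.nf_long h0' hF'] at h
          refine Or.inr ⟨h0, h0', hF, hF', ?_, ?_⟩
          · intro c hc
            have h1 : c ∈ τ.sd s ↔ c ∈ τ.sd s' := by rw [(List.cons.inj h).2]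
            simpa [Tm.mem_sd, hc] using h1
          · have h1 := (List.cons.inj h).1
            rw [(List.cons.inj h).2] at h1
            omega

/-! ### The family -/

/-- seeds with odd colour -/
def cc (i : ℕ) : ℕ := 4 * i + 5
/-- seeds with even colour -/
def kk (i : ℕ) : ℕ := 4 * i + 6
/-- further odd colours -/
def dd (k : ℕ) : ℕ := 4 * k + 7
/-- further even colours -/
def oo (i : ℕ) : ℕ := 4 * i + 4

/-- list of seeds -/
def sds (r h : ℕ) : List ℕ := (List.range r).map cc ++ (List.range h).map kk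

/-- general form of the templates -/
def mkT (l r h : ℕ) (D : ℕ → Prop) (m : ℕ) (bad : List ℕ → Prop) : Tm where
  len := l
  cols c := (∃ i, i < r ∧ c = cc i) ∨ (∃ i, i < h ∧ c = kk i) ∨ (∃ k, D k ∧ c = dd k) ∨
    (∃ i, i < m ∧ c = oo i)
  seeds := sds r h
  bad := bad

/-- even words of length `l` that are not full -/
def nfw (l r h : ℕ) (w : List ℕ) : Prop :=
  w.length = l ∧ w.sum % 2 = 0 ∧ ¬ ∀ c ∈ sds r h, c ∈ w

/-- the block `x o^n y` -/
def blk {α : Type u} (o x : α) (n : ℕ) (y : α) : List α := x :: (List.replicate n o ++ [y])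

/-- the additional forbidden words of `T1` -/
def bad1 (J : TS) (w : List ℕ) : Prop :=
  w.length ≤ J.L ∧
    ((∃ k n, J.inJ k = true ∧ J.succ k = false ∧ n ≠ J.p k ∧ w = blk (oo 0) (cc 0) n (dd k)) ∨
    (∃ k n, J.inJ k = true ∧ J.succ k = false ∧ n ≠ J.p (J.star k) ∧
      w = blk (oo 0) (dd k) n (cc 0)) ∨
    (∃ n, n ≠ 1 ∧ w = blk (oo 0) (cc 0) n (cc 0)))

/-- the additional forbidden words of `L3` -/
def bad3 (J : TS) (w : List ℕ) : Prop :=
  ∃ i j k, J.inJ i = true ∧ J.inJ j = true ∧ J.inJ k = true ∧ J.legal i j k = true ∧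
    w = cc 0 :: (List.replicate (J.p i) (oo 0) ++ cc 1 :: (List.replicate (J.p j) (oo 0) ++
      cc 2 :: (List.replicate (J.p k) (oo 0) ++ [cc 0])))

/-- template `T1` -/
def T1 (J : TS) : Tm :=
  mkT J.L 1 0 (fun k => J.inJ k = true ∧ J.succ k = false) 1 fun w => nfw J.L 1 0 w ∨ bad1 J w

/-- template `L3` -/
def L3 (J : TS) : Tm :=
  mkT J.L 3 0 (fun k => k = 0) 1 fun w => nfw J.L 3 0 w ∨ bad3 J w

/-- template `G(r,0)` -/
def G0 (J : TS) (r : ℕ) : Tm :=
  mkT J.L r 0 (fun k => k = 0) 1 fun w => nfw J.L r 0 w ∨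
    (w.length = J.L ∧ w.sum % 2 = 0 ∧ ∀ c, c ∈ w ↔ (c ∈ sds r 0 ∨ c = oo 0))

/-- template `G(r,1)` -/
def G1 (J : TS) (r : ℕ) : Tm :=
  mkT J.L r 1 (fun k => k = 0) 1 fun w => nfw J.L r 1 w ∨
    (w.length = J.L ∧ w.sum % 2 = 0 ∧ ∀ c, c ∈ w ↔ c ∈ sds r 1)

/-- template `F(r,h)` -/
def FF (J : TS) (r h : ℕ) : Tm := mkT J.L r h (fun k => k = 0) 1 (nfw J.L r h)

/-- template `Free(g)` -/
def FR (J : TS) (g : ℕ) : Tm := mkT J.L 0 g (fun _ => False) J.L (fun _ => False)

/-- the templates with odd colours -/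
def InFam' (J : TS) (τ : Tm) : Prop :=
  τ = T1 J ∨ τ = L3 J ∨ (∃ r, 1 ≤ r ∧ r ≤ 5 ∧ τ = G0 J r) ∨ (∃ r, 1 ≤ r ∧ r ≤ 4 ∧ τ = G1 J r) ∨
    (∃ r h, 2 ≤ h ∧ r + h ≤ 5 ∧ τ = FF J r h)

/-- the family -/
def InFam (J : TS) (τ : Tm) : Prop :=
  InFam' J τ ∨ (∃ g, 1 ≤ g ∧ g ≤ 5 ∧ τ = FR J g)

/-! ### Separation -/

/-- `u` is separated, among the words over `Y`, by a member of the family -/
def Sep (J : TS) {G : Type u} {T : Type v} [Semigroup T] (f : G → T) (Y : Set G) (u : List G) :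
    Prop :=
  ∃ τ, InFam J τ ∧ ∃ σ : G → List ℕ, (∀ g, σ g ≠ []) ∧
    ∀ v : List G, v ≠ [] → (∀ g ∈ v, g ∈ Y) → τ.nf (v.flatMap σ) = τ.nf (u.flatMap σ) →
      prd (v.map f) = prd (u.map f)

/-- locality hypothesis for the semigroup `T` -/
def Loc (J : TS) (n : ℕ) (T : Type u) [Semigroup T] : Prop :=
  ∀ Y : Finset T, Y.card ≤ n → ∀ u : List T, u ≠ [] → (∀ t ∈ u, t ∈ Y) →
    Sep J (fun t : T => t) (Y : Set T) u

end Pool.Agent.Lib.MP_226ef1_lc.U
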