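import Mathlib

/-!
# Finite axiomatisability of inclusive varieties generated by finite semigroups: definitions

These are the notions used in the final statement.
-/

set_option autoImplicit false

namespace Pool.Agent.Lib.MP_226ef1_lc.U

universe u

/-- Words: the free semigroup of nonempty words over the countably infinite alphabet of variables
`x_0, x_1, ...`. -/
abbrev Word : Type := FreeSemigroup ℕ

/-- `S` satisfies the identical inclusion of the word `p` in the set `V` of words: for every
homomorphism `φ` of the free semigroup into `S` there is `v ∈ V` with `φ p = φ v`. -/
def Satisfies (S : Type u) [Semigroup S] (p : Word) (V : Set Word) : Prop :=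
  ∀ φ : Word →ₙ* S, ∃ v ∈ V, φ p = φ v

/-- Multiplication tables (the rows of a square matrix of natural numbers). -/
abbrev Table : Type := List (List ℕ)

/-- The entry in row `i` and column `j`. -/
def Table.entry (t : Table) (i j : ℕ) : ℕ := (t.getD i []).getD j 0

/-- `t` is the multiplication table of a (nonempty) semigroup with elements
`0, 1, ..., t.length - 1`. -/
structure Table.IsSemigroup (t : Table) : Prop where
  ne_nil : t ≠ []
  row_length : ∀ r ∈ t, r.length = t.length
  entry_lt : ∀ i j, i < t.length → j < t.length → t.entry i j < t.length
  assoc : ∀ i j k, i < t.length → j < t.length → k < t.length →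
    t.entry (t.entry i j) k = t.entry i (t.entry j k)

/-- The underlying set of the semigroup with multiplication table `t`. -/
def Table.Sgp (t : Table) (_h : t.IsSemigroup) : Type := Fin t.length

/-- The semigroup with multiplication table `t`. -/
instance Table.instSemigroup (t : Table) (h : t.IsSemigroup) : Semigroup (t.Sgp h) where
  mul (i j : Fin t.length) := (⟨t.entry i.1 j.1, h.entry_lt i.1 j.1 i.2 j.2⟩ : Fin t.length)
  mul_assoc (i j k : Fin t.length) := Fin.ext (h.assoc i.1 j.1 k.1 i.2 j.2 k.2)

/-- `T` belongs to the inclusive variety generated by the finite semigroups with the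
multiplication tables in the list `L`: it satisfies every identical inclusion that all these
semigroups satisfy. -/
def InGenerated (L : List Table) (hL : ∀ t ∈ L, t.IsSemigroup) (T : Type u) [Semigroup T] : Prop :=
  ∀ (p : Word) (V : Set Word),
    (∀ (t : Table) (ht : t ∈ L), Satisfies (t.Sgp (hL t ht)) p V) → Satisfies T p V

/-- The inclusive variety generated by the finite semigroups with the multiplication tables in
`L` is defined by a finite set `B` of elementary identical inclusions (pairs of a word and a
finite set of words). -/
def FinitelyAxiomatisable (L : List Table) (hL : ∀ t ∈ L, t.IsSemigroup) : Prop :=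
  ∃ B : Set (Word × Finset Word), B.Finite ∧ ∀ (T : Type u) [Semigroup T],
    InGenerated L hL T ↔ ∀ b ∈ B, Satisfies T b.1 (b.2 : Set Word)

end Pool.Agent.Lib.MP_226ef1_lc.U
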