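import Pool.Agent.Lib.MP_226ef1_lc.U.Iface

/-!
# Tools: counting, parities, images of words
-/

set_option autoImplicit false

namespace Pool.Agent.Lib.MP_226ef1_lc.U

universe u v w

section cnt
variable {α : Type u}

theorem cnt_eq [inst : DecidableEq α] (a : α) (w : List α) : cnt a w = w.count a := by
  have h : inst = fun a b => Classical.propDecidable (a = b) := Subsingleton.elim _ _
  subst h
  rfl

@[simp] theorem cnt_nil (a : α) : cnt a [] = 0 := by
  classical simp [cnt_eq]

theorem cnt_append (a : α) (w w' : List α) : cnt a (w ++ w') = cnt a w + cnt a w' := by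
  classical simp [cnt_eq]

theorem cnt_cons_self (a : α) (w : List α) : cnt a (a :: w) = cnt a w + 1 := by
  classical simp [cnt_eq]

theorem cnt_cons_ne {a b : α} (h : b ≠ a) (w : List α) : cnt a (b :: w) = cnt a w := by
  classical
  rw [cnt_eq, cnt_eq, List.count_cons_of_ne h]

theorem cnt_pos_iff {a : α} {w : List α} : 0 < cnt a w ↔ a ∈ w := by
  classical simp [cnt_eq]

theorem cnt_eq_zero_iff {a : α} {w : List α} : cnt a w = 0 ↔ a ∉ w := by
  classical simp [cnt_eq, List.count_eq_zero]

theorem cnt_perm {w w' : List α} (h : w.Perm w') (a : α) : cnt a w = cnt a w' := by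
  classical
  rw [cnt_eq, cnt_eq, h.count_eq]

end cnt

section par
variable {α : Type u} {p : α → Prop}

theorem par_eq [inst : DecidablePred p] (w : List α) :
    par p w = (w.countP fun a => decide (p a)) % 2 := by
  have h : inst = fun a => Classical.propDecidable (p a) := Subsingleton.elim _ _
  subst h
  rfl

@[simp] theorem par_nil : par p [] = 0 := by
  classical simp [par_eq]

theorem par_lt (w : List α) : par p w < 2 := by
  classical
  rw [par_eq]
  exact Nat.mod_lt _ (by decide)

theorem par_append (w w' : List α) : par p (w ++ w') = (par p w + par p w') % 2 := by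
  classical
  rw [par_eq, par_eq, par_eq, List.countP_append]
  omega

theorem par_cons_pos {a : α} (h : p a) (w : List α) : par p (a :: w) = (par p w + 1) % 2 := by
  classical
  rw [par_eq, par_eq, List.countP_cons_of_pos (by simpa using h)]
  omega

theorem par_cons_neg {a : α} (h : ¬ p a) (w : List α) : par p (a :: w) = par p w := by
  classical
  rw [par_eq, par_eq, List.countP_cons_of_neg (by simpa using h)]

theorem par_singleton_pos {a : α} (h : p a) : par p [a] = 1 := by
  rw [par_cons_pos h]; simp

theorem par_singleton_neg {a : α} (h : ¬ p a) : par p [a] = 0 := by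
  rw [par_cons_neg h]; simp

theorem par_perm {w w' : List α} (h : w.Perm w') : par p w = par p w' := by
  classical
  rw [par_eq, par_eq, h.countP_eq]

theorem par_eq_zero_of_forall {w : List α} (h : ∀ a ∈ w, ¬ p a) : par p w = 0 := by
  induction w with
  | nil => simp
  | cons a w ih =>
    rw [par_cons_neg (h a (by simp)), ih fun b hb => h b (by simp [hb])]

theorem par_congr {q : α → Prop} {w : List α} (h : ∀ a ∈ w, (p a ↔ q a)) : par p w = par q w := by
  induction w with
  | nil => simp
  | cons a w ih =>
    have ih' := ih fun b hb => h b (by simp [hb])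
    by_cases ha : p a
    · rw [par_cons_pos ha, par_cons_pos ((h a (by simp)).1 ha), ih']
    · rw [par_cons_neg ha, par_cons_neg (fun hq => ha ((h a (by simp)).2 hq)), ih']

theorem par_flatten_replicate (n : ℕ) (w : List α) :
    par p (List.replicate n w).flatten = (n * par p w) % 2 := by
  induction n with
  | zero => simp
  | succ n ih =>
    rw [List.replicate_succ, List.flatten_cons, par_append, ih]
    rw [Nat.add_mod_mod]
    congr 1
    ring

/-- all multiplicities even: even parity -/
theorem par_eq_zero_of_cnt : ∀ (n : ℕ) {w : List α}, w.length ≤ n → (∀ a, cnt a w % 2 = 0) →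
    par p w = 0 := by
  classical
  intro n
  induction n with
  | zero =>
    intro w hw _
    have : w = [] := List.length_eq_zero_iff.1 (by omega)
    simp [this]
  | succ n ih =>
    intro w hw h
    rcases w with _ | ⟨a, w⟩
    · simp
    · have ha : a ∈ w := by
        rw [← cnt_pos_iff]
        have := h a
        rw [cnt_cons_self] at this
        omega
      obtain ⟨s, t, rfl⟩ := List.append_of_mem ha
      have hperm : (a :: (s ++ a :: t)).Perm (a :: a :: (s ++ t)) :=
        List.Perm.cons a List.perm_middle
      rw [par_perm hperm]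
      have h2 : par p (s ++ t) = 0 := by
        refine ih (by simp at hw ⊢; omega) fun b => ?_
        have h3 := h b
        rw [cnt_perm hperm] at h3
        by_cases hb : a = b
        · subst hb
          rw [cnt_cons_self, cnt_cons_self] at h3
          omega
        · rw [cnt_cons_ne hb, cnt_cons_ne hb] at h3
          exact h3
      by_cases hp : p a
      · rw [par_cons_pos hp, par_cons_pos hp, h2]
      · rw [par_cons_neg hp, par_cons_neg hp, h2]

end par

section images
variable {α : Type u}

/-- parity of the sum of the image of a word -/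
theorem sum_flatMap_mod (σ : α → List ℕ) (w : List α) :
    (w.flatMap σ).sum % 2 = par (fun a => (σ a).sum % 2 = 1) w := by
  induction w with
  | nil => simp
  | cons a w ih =>
    rw [List.flatMap_cons, List.sum_append]
    by_cases ha : (σ a).sum % 2 = 1
    · rw [par_cons_pos (p := fun a => (σ a).sum % 2 = 1) ha]; omega
    · rw [par_cons_neg (p := fun a => (σ a).sum % 2 = 1) ha]; omega

theorem sum_flatMap_even (σ : α → List ℕ) {w : List α} (h : ∀ a, cnt a w % 2 = 0) :
    (w.flatMap σ).sum % 2 = 0 := by
  rw [sum_flatMap_mod]
  exact par_eq_zero_of_cnt w.length le_rfl h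

theorem par_eq_of_cnt {p : α → Prop} {w w' : List α} (h : ∀ a, cnt a w % 2 = cnt a w' % 2) :
    par p w = par p w' := by
  have h1 : par p (w ++ w') = 0 := by
    refine par_eq_zero_of_cnt (w ++ w').length le_rfl fun a => ?_
    rw [cnt_append]
    have := h a
    omega
  rw [par_append] at h1
  have h2 := par_lt (p := p) w
  have h3 := par_lt (p := p) w'
  omega

theorem sum_flatMap_congr (σ : α → List ℕ) {w w' : List α}
    (h : ∀ a, cnt a w % 2 = cnt a w' % 2) :
    (w.flatMap σ).sum % 2 = (w'.flatMap σ).sum % 2 := by
  rw [sum_flatMap_mod, sum_flatMap_mod]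
  exact par_eq_of_cnt h

theorem length_le_flatMap {σ : α → List ℕ} {w : List α} (h : ∀ a ∈ w, σ a ≠ []) :
    w.length ≤ (w.flatMap σ).length := by
  induction w with
  | nil => simp
  | cons a w ih =>
    have h1 := ih fun b hb => h b (by simp [hb])
    have h2 : 0 < (σ a).length := List.length_pos_iff.2 (h a (by simp))
    rw [List.flatMap_cons, List.length_append, List.length_cons]
    omega

/-- the image is longer if a letter has an image of length at least two -/
theorem length_lt_flatMap {σ : α → List ℕ} {w : List α} (h : ∀ a ∈ w, σ a ≠ []) {b : α}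
    (hb : b ∈ w) (h2 : 2 ≤ (σ b).length) : w.length < (w.flatMap σ).length := by
  obtain ⟨s, t, rfl⟩ := List.append_of_mem hb
  have h3 := length_le_flatMap (σ := σ) (w := s) fun a ha => h a (by simp [ha])
  have h4 := length_le_flatMap (σ := σ) (w := t) fun a ha => h a (by simp [ha])
  rw [List.flatMap_append, List.flatMap_cons]
  simp only [List.length_append, List.length_cons]
  omega

theorem flatMap_eq_map {σ : α → List ℕ} {c : α → ℕ} {w : List α} (h : ∀ a ∈ w, σ a = [c a]) :
    w.flatMap σ = w.map c := by
  induction w with
  | nil => simp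
  | cons a w ih =>
    rw [List.flatMap_cons, h a (by simp), ih fun b hb => h b (by simp [hb])]
    simp

theorem sum_map_mod {main : α → Prop} {c : α → ℕ} {w : List α}
    (h : ∀ a ∈ w, (main a ↔ c a % 2 = 1)) : (w.map c).sum % 2 = par main w := by
  induction w with
  | nil => simp
  | cons a w ih =>
    have ih' := ih fun b hb => h b (by simp [hb])
    rw [List.map_cons, List.sum_cons]
    by_cases ha : main a
    · have := (h a (by simp)).1 ha
      rw [par_cons_pos ha]; omega
    · have : ¬ c a % 2 = 1 := fun hc => ha ((h a (by simp)).2 hc)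
      rw [par_cons_neg ha]; omega

end images

theorem Tm.not_free_of_len {τ : Tm} {w : List ℕ} (h : τ.len < w.length) : ¬ τ.Free w :=
  fun hF => absurd hF.2.1 (by omega)

theorem Tm.not_free_of_bad {τ : Tm} {w s : List ℕ} (hs : s <:+: w) (h : τ.bad s) : ¬ τ.Free w :=
  fun hF => hF.2.2.2 s hs h

theorem Tm.not_free_of_col {τ : Tm} {w : List ℕ} {c : ℕ} (hc : c ∈ w) (h : ¬ τ.cols c) :
    ¬ τ.Free w :=
  fun hF => h (hF.2.2.1 c hc)

/-- a nonempty word over the colours of length at most `len` is free iff it has no bad factor -/
theorem Tm.exists_bad_of_not_free {τ : Tm} {w : List ℕ} (h0 : w ≠ []) (hl : w.length ≤ τ.len)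
    (hc : ∀ c ∈ w, τ.cols c) (h : ¬ τ.Free w) : ∃ s, s <:+: w ∧ τ.bad s := by
  by_contra hcon
  push Not at hcon
  exact h ⟨h0, hl, hc, hcon⟩

/-- infixes of an image under `map` -/
theorem exists_infix_of_map {α β : Type*} {c : α → β} {w : List α} {s : List β}
    (h : s <:+: w.map c) : ∃ a v b, w = a ++ v ++ b ∧ v.map c = s := by
  obtain ⟨x, y, hxy⟩ := h
  obtain ⟨w1, b, h1, h2, rfl⟩ := List.append_eq_map_iff.1 hxy
  obtain ⟨a, v, h3, h4, h5⟩ := List.append_eq_map_iff.1 h2.symm
  exact ⟨a, v, b, by rw [h1, h3], h5⟩

end Pool.Agent.Lib.MP_226ef1_lc.U
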