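import Pool.Agent.Lib.MP_226ef1_lc.U.Base

/-!
# Interfaces for the reduction (Paper.md, sections 3, 4, 5)

Every module proves one `XStatement` (possibly from others as hypotheses).
-/

set_option autoImplicit false

namespace Pool.Agent.Lib.MP_226ef1_lc.U

universe u v w

/-! ### Counting -/

/-- number of occurrences (classical) -/
noncomputable def cnt {α : Type u} (a : α) (w : List α) : ℕ := by
  classical exact w.count a

/-- parity of the number of letters satisfying `p` (classical) -/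
noncomputable def par {α : Type u} (p : α → Prop) (w : List α) : ℕ := by
  classical exact (w.countP fun a => decide (p a)) % 2

/-! ### Section 3: normal forms -/

/-- module NF: normal forms are compatible with concatenation -/
def NfStatement : Prop :=
  ∀ τ : Tm, τ.WF →
    (∀ a b : List ℕ, a ≠ [] → τ.nf (τ.nf a ++ b) = τ.nf (a ++ b)) ∧
    (∀ a b : List ℕ, b ≠ [] → τ.nf (a ++ τ.nf b) = τ.nf (a ++ b)) ∧
    (∀ a : List ℕ, a ≠ [] → τ.nf (τ.nf a) = τ.nf a ∧ τ.nf a ≠ [])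

/-- module FAMWF: the templates are well-formed -/
def FamWfStatement : Prop :=
  ∀ J : TS, J.WF → ∀ τ, InFam J τ → τ.WF ∧ τ.len = J.L ∧ τ.seeds.Nodup

/-! ### Section 5.0: long words and the idempotents `e_Y` -/

/-- long words depend only on content and multiplicities modulo 2 -/
def LongEq (l : ℕ) (T : Type u) [Semigroup T] : Prop :=
  ∀ w w' : List T, l < w.length → l < w'.length → (∀ t, t ∈ w ↔ t ∈ w') →
    (∀ t, cnt t w % 2 = cnt t w' % 2) → prd w = prd w'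

/-- module LONG -/
def LongStatement : Prop :=
  ∀ (J : TS), J.WF → ∀ (T : Type u) [Semigroup T], Loc J (J.L + 1) T → LongEq J.L T

/-- a long word with content `Y` and even multiplicities -/
noncomputable def dbl {α : Type u} (l : ℕ) (Y : Finset α) : List α :=
  (List.replicate (l + 1) (Y.toList ++ Y.toList)).flatten

/-- the idempotent `e_Y` -/
noncomputable def ee {T : Type u} [Semigroup T] (l : ℕ) (Y : Finset T) : WithOne T :=
  prd (dbl l Y)

/-- basic facts on `e_Y` -/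
structure EFacts (l : ℕ) (T : Type u) [Semigroup T] : Prop where
  dbl_mem : ∀ (Y : Finset T) (t : T), t ∈ dbl l Y ↔ t ∈ Y
  dbl_len : ∀ Y : Finset T, Y.Nonempty → l < (dbl l Y).length
  dbl_cnt : ∀ (Y : Finset T) (t : T), cnt t (dbl l Y) % 2 = 0
  /-- every long word with content `Y` and even multiplicities has value `e_Y` -/
  eq : ∀ (Y : Finset T) (w : List T), l < w.length → (∀ t, t ∈ w ↔ t ∈ Y) →
    (∀ t, cnt t w % 2 = 0) → prd w = ee l Y
  mul : ∀ (Y Y' Z : Finset T), Y.Nonempty → Y'.Nonempty → (∀ t, t ∈ Z ↔ t ∈ Y ∨ t ∈ Y') →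
    ee l Y * ee l Y' = ee l Z
  comm : ∀ (Y : Finset T) (t : T), t ∈ Y → ee l Y * (t : WithOne T) = (t : WithOne T) * ee l Y
  sq : ∀ (Y : Finset T) (t : T), t ∈ Y → ee l Y * (t : WithOne T) * (t : WithOne T) = ee l Y
  ne_one : ∀ Y : Finset T, Y.Nonempty → ∃ t : T, ee l Y = (t : WithOne T)

/-- module EFACTS -/
def EFactsStatement : Prop :=
  ∀ (l : ℕ) (T : Type u) [Semigroup T], LongEq l T → EFacts l T

/-- generating subsets of `G` -/
def Gen {T : Type u} [Semigroup T] (l : ℕ) (G Y : Finset T) : Prop :=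
  Y.Nonempty ∧ Y ⊆ G ∧ ee l Y = ee l G

/-- mains of `G` -/
def mn {T : Type u} [Semigroup T] (l : ℕ) (G : Finset T) (t : T) : Prop :=
  ee l G * (t : WithOne T) ≠ ee l G

/-- module STEP2 (Paper 5.2) -/
def Step2Statement : Prop :=
  ∀ (J : TS), J.WF → ∀ (T : Type u) [Semigroup T], Loc J (J.L + 1) T → LongEq J.L T →
    EFacts J.L T → ∀ G : Finset T, G.Nonempty → ∃ Y, Gen J.L G Y ∧ Y.card ≤ 5

/-- rank at most one -/
def Rank1 {T : Type u} [Semigroup T] (l : ℕ) (G : Finset T) : Prop :=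
  ∀ x ∈ G, ∀ y ∈ G, mn l G x → mn l G y →
    ee l G * (x : WithOne T) * (y : WithOne T) = ee l G

/-- module STEP3 (Paper 5.3, first part) -/
def Step3Statement : Prop :=
  ∀ (J : TS), J.WF → ∀ (T : Type u) [Semigroup T], Loc J (J.L + 1) T → LongEq J.L T →
    EFacts J.L T → ∀ G : Finset T, (∃ Y, Gen J.L G Y ∧ Y.card ≤ 5) → Rank1 J.L G

/-- facts for rank at most one (Paper 5.3, second part) -/
structure RankFacts {T : Type u} [Semigroup T] (l : ℕ) (G : Finset T) : Prop where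
  even : ∀ w : List T, (∀ t ∈ w, t ∈ G) → par (mn l G) w = 0 → ee l G * prd w = ee l G
  odd : ∀ w : List T, (∀ t ∈ w, t ∈ G) → par (mn l G) w = 1 → ee l G * prd w ≠ ee l G
  same : ∀ w w' : List T, (∀ t ∈ w, t ∈ G) → (∀ t ∈ w', t ∈ G) →
    par (mn l G) w = par (mn l G) w' → ee l G * prd w = ee l G * prd w'
  comm : ∀ w : List T, (∀ t ∈ w, t ∈ G) → ee l G * prd w = prd w * ee l G
  up : ∀ Y Y' : Finset T, Gen l G Y → Y ⊆ Y' → Y' ⊆ G → Gen l G Y'
  /-- value of a long word with generating content -/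
  long : ∀ (w : List T) (Y : Finset T), l < w.length → (∀ t, t ∈ w ↔ t ∈ Y) → Gen l G Y →
    prd w = ee l G * prd w

/-- module RANK -/
def RankStatement : Prop :=
  ∀ (l : ℕ) (T : Type u) [Semigroup T], LongEq l T → EFacts l T → ∀ G : Finset T, G.Nonempty →
    Rank1 l G → RankFacts l G

/-- separation of `u` in `T` -/
def SepT (J : TS) {T : Type u} [Semigroup T] (u : List T) : Prop :=
  Sep J (fun t : T => t) Set.univ u

/-- module SHORT (Paper 5.1) -/
def ShortStatement : Prop :=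
  ∀ (J : TS), J.WF → ∀ (T : Type u) [Semigroup T] (u : List T), u ≠ [] → u.length ≤ J.L →
    SepT J u

/-- module STEP4 (Paper 5.4) -/
def Step4Statement : Prop :=
  ∀ (J : TS), J.WF → ∀ (T : Type u) [Semigroup T], ∀ (G : Finset T) (u : List T),
    J.L < u.length → (∀ t, t ∈ u ↔ t ∈ G) → RankFacts J.L G →
    (∃ Y, Gen J.L G Y ∧ Y.card ≤ 5) → (∀ x ∈ G, ¬ mn J.L G x) → SepT J u

/-- module STEP5 (Paper 5.5) -/
def Step5Statement : Prop :=
  ∀ (J : TS), J.WF → ∀ (T : Type u) [Semigroup T], Loc J (J.L + 1) T → ∀ (G : Finset T)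
    (u : List T), J.L < u.length → (∀ t, t ∈ u ↔ t ∈ G) → RankFacts J.L G →
    G.card ≤ J.L + 1 → (∃ x ∈ G, mn J.L G x) → SepT J u

/-! ### Colourings -/

/-- `c` is label preserving and full on `Y`, and sets that cover the seeds are generating -/
def GoodC {α : Type u} (τ : Tm) (Y : Finset α) (main : α → Prop) (gen : Finset α → Prop)
    (c : α → ℕ) : Prop :=
  (∀ x ∈ Y, τ.cols (c x) ∧ (main x ↔ c x % 2 = 1)) ∧ (∀ s ∈ τ.seeds, ∃ x ∈ Y, c x = s) ∧
    ∀ Y' ⊆ Y, (∀ s ∈ τ.seeds, ∃ x ∈ Y', c x = s) → gen Y'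

/-- words over `Y` with full image in `bad` -/
def BadIn {α : Type u} (τ : Tm) (Y : Finset α) (c : α → ℕ) (v : List α) : Prop :=
  (∀ x ∈ v, x ∈ Y) ∧ τ.bad (v.map c) ∧ ∀ s ∈ τ.seeds, s ∈ v.map c

/-- module BLOCK (Paper 5.6, Block Lemma) -/
def BlockStatement : Prop :=
  ∀ (J : TS), J.WF → ∀ (T : Type u) [Semigroup T], ∀ (G : Finset T) (u : List T),
    J.L < u.length → (∀ t, t ∈ u ↔ t ∈ G) → RankFacts J.L G →
    ∀ (τ : Tm), InFam' J τ → ∀ c : T → ℕ, GoodC τ G (mn J.L G) (Gen J.L G) c →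
      (∀ v, BadIn τ G c v → prd v = ee J.L G) → SepT J u

/-- module OBS (Paper 5.7, Obstruction Lemma) -/
def ObsStatement : Prop :=
  ∀ (J : TS), J.WF → ∀ (T : Type u) [Semigroup T], Loc J (J.L + 1) T → EFacts J.L T →
    ∀ (G : Finset T), RankFacts J.L G →
    ∀ Y : Finset T, Gen J.L G Y → Y.card ≤ J.L + 1 → (∃ x ∈ Y, mn J.L G x) →
    ∀ V : List T, (∀ x, x ∈ V ↔ x ∈ Y) → V.length = J.L → par (mn J.L G) V = 0 →
      prd V ≠ ee J.L G →
      ∃ τ, InFam' J τ ∧ ∃ c : T → ℕ, GoodC τ Y (mn J.L G) (Gen J.L G) c ∧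
        ∀ v, BadIn τ Y c v → prd v = ee J.L G

/-! ### Section 5.8: the combinatorial core -/

/-- the data of Paper 5.8; `N v` stands for `pi(v) ≠ e` -/
structure Core (J : TS) {α : Type u} (G : Finset α) (main : α → Prop) (gen : Finset α → Prop)
    (N : List α → Prop) : Prop where
  card : J.L + 1 < G.card
  exMain : ∃ x ∈ G, main x
  gen_sub : ∀ Y, gen Y → Y.Nonempty ∧ Y ⊆ G
  gen_up : ∀ Y Y', gen Y → Y ⊆ Y' → Y' ⊆ G → gen Y'
  gen5 : ∃ Y, gen Y ∧ Y.card ≤ 5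
  /-- factor property -/
  fac : ∀ a v b : List α, (∀ x ∈ a ++ v ++ b, x ∈ G) → v ≠ [] → par main v = 0 →
    par main (a ++ v ++ b) = 0 → N (a ++ v ++ b) → N v
  /-- from the Block Lemma -/
  bl : ∀ τ, InFam' J τ → ∀ c : α → ℕ, GoodC τ G main gen c → ∃ v, BadIn τ G c v ∧ N v
  /-- from the Obstruction Lemma -/
  ol : ∀ Y : Finset α, gen Y → Y.card ≤ J.L + 1 → (∃ x ∈ Y, main x) →
    ∀ V : List α, (∀ x, x ∈ V ↔ x ∈ Y) → V.length = J.L → par main V = 0 → N V →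
      ∃ τ, InFam' J τ ∧ ∃ c : α → ℕ, GoodC τ Y main gen c ∧ ∀ v, BadIn τ Y c v → ¬ N v

/-- consequences of `bl` (Paper (8.1) - (8.4)) -/
structure Cons (J : TS) {α : Type u} (G : Finset α) (main : α → Prop) (gen : Finset α → Prop)
    (N : List α → Prop) : Prop where
  /-- (8.1) -/
  c1 : ∀ Z, gen Z → Z.card ≤ 5 → ∀ o ∈ Z, ∀ o' ∈ Z, ¬ main o → ¬ main o' → o = o'
  /-- (8.2) -/
  c2 : ∀ Z, gen Z → Z.card ≤ 5 → ∀ o ∈ Z, ¬ main o → (∀ x ∈ Z, x ≠ o → main x) →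
    (∃ x ∈ Z, main x) →
    ∃ V : List α, (∀ x, x ∈ V ↔ x ∈ Z) ∧ V.length = J.L ∧ par main V = 0 ∧ N V
  /-- (8.3) -/
  c3 : ∀ Z, gen Z → Z.card ≤ 5 → (∀ x ∈ Z, main x) →
    ∃ V : List α, (∀ x ∈ Z, x ∈ V) ∧ (∀ x ∈ V, x ∈ G ∧ (main x → x ∈ Z)) ∧
      (∃ o ∈ V, ¬ main o) ∧ V.length = J.L ∧ par main V = 0 ∧ N V
  /-- (8.4) -/
  c4 : ∀ x y z, x ≠ y → y ≠ z → z ≠ x → main x → main y → main z →
    (∃ Z, gen Z ∧ ∀ t, t ∈ Z ↔ t = x ∨ t = y ∨ t = z) →
    ∃ i j k, J.inJ i = true ∧ J.inJ j = true ∧ J.inJ k = true ∧ J.legal i j k = true ∧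
      ∃ W1 W2 W3 : List α, (∀ o ∈ W1 ++ W2 ++ W3, o ∈ G ∧ ¬ main o) ∧ W1.length = J.p i ∧
        W2.length = J.p j ∧ W3.length = J.p k ∧ N (x :: (W1 ++ y :: (W2 ++ z :: (W3 ++ [x]))))

/-- the consequence of `bl` for `T1` (Paper (A4)) -/
def ConsT1 (J : TS) {α : Type u} (G : Finset α) (main : α → Prop) (gen : Finset α → Prop)
    (N : List α → Prop) : Prop :=
  ∀ x ∈ G, main x → (∃ Z, gen Z ∧ ∀ t, t ∈ Z ↔ t = x) → ∀ t : α → ℕ,
    (∀ y ∈ G, main y → y ≠ x → J.inJ (t y) = true ∧ J.succ (t y) = false) →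
    ∃ W : List α, (∀ o ∈ W, o ∈ G ∧ ¬ main o) ∧ W.length + 2 ≤ J.L ∧
      ((∃ y ∈ G, main y ∧ y ≠ x ∧ W.length ≠ J.p (t y) ∧ N (x :: (W ++ [y]))) ∨
       (∃ y ∈ G, main y ∧ y ≠ x ∧ W.length ≠ J.p (J.star (t y)) ∧ N (y :: (W ++ [x]))) ∨
       (W.length ≠ 1 ∧ N (x :: (W ++ [x]))))

/-- module C1: (8.1) -/
def C1Statement : Prop :=
  ∀ (J : TS), J.WF → ∀ (α : Type u) (G : Finset α) (main : α → Prop) (gen : Finset α → Prop)
    (N : List α → Prop), Core J G main gen N →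
    ∀ Z, gen Z → Z.card ≤ 5 → ∀ o ∈ Z, ∀ o' ∈ Z, ¬ main o → ¬ main o' → o = o'

/-- module C2: (8.2) -/
def C2Statement : Prop :=
  ∀ (J : TS), J.WF → ∀ (α : Type u) (G : Finset α) (main : α → Prop) (gen : Finset α → Prop)
    (N : List α → Prop), Core J G main gen N →
    ∀ Z, gen Z → Z.card ≤ 5 → ∀ o ∈ Z, ¬ main o → (∀ x ∈ Z, x ≠ o → main x) →
    (∃ x ∈ Z, main x) →
    ∃ V : List α, (∀ x, x ∈ V ↔ x ∈ Z) ∧ V.length = J.L ∧ par main V = 0 ∧ N V

/-- module C3: (8.3) -/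
def C3Statement : Prop :=
  ∀ (J : TS), J.WF → ∀ (α : Type u) (G : Finset α) (main : α → Prop) (gen : Finset α → Prop)
    (N : List α → Prop), Core J G main gen N →
    ∀ Z, gen Z → Z.card ≤ 5 → (∀ x ∈ Z, main x) →
    ∃ V : List α, (∀ x ∈ Z, x ∈ V) ∧ (∀ x ∈ V, x ∈ G ∧ (main x → x ∈ Z)) ∧
      (∃ o ∈ V, ¬ main o) ∧ V.length = J.L ∧ par main V = 0 ∧ N V

/-- module C4: (8.4) -/
def C4Statement : Prop :=
  ∀ (J : TS), J.WF → ∀ (α : Type u) (G : Finset α) (main : α → Prop) (gen : Finset α → Prop)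
    (N : List α → Prop), Core J G main gen N →
    ∀ x y z, x ≠ y → y ≠ z → z ≠ x → main x → main y → main z →
    (∃ Z, gen Z ∧ ∀ t, t ∈ Z ↔ t = x ∨ t = y ∨ t = z) →
    ∃ i j k, J.inJ i = true ∧ J.inJ j = true ∧ J.inJ k = true ∧ J.legal i j k = true ∧
      ∃ W1 W2 W3 : List α, (∀ o ∈ W1 ++ W2 ++ W3, o ∈ G ∧ ¬ main o) ∧ W1.length = J.p i ∧
        W2.length = J.p j ∧ W3.length = J.p k ∧ N (x :: (W1 ++ y :: (W2 ++ z :: (W3 ++ [x]))))

/-- consequences of `bl` -/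
def ConsStatement : Prop :=
  ∀ (J : TS), J.WF → ∀ (α : Type u) (G : Finset α) (main : α → Prop) (gen : Finset α → Prop)
    (N : List α → Prop), Core J G main gen N → Cons J G main gen N

theorem cons_of (h1 : C1Statement.{u}) (h2 : C2Statement.{u}) (h3 : C3Statement.{u})
    (h4 : C4Statement.{u}) : ConsStatement.{u} := fun J hJ α G main gen N h =>
  ⟨h1 J hJ α G main gen N h, h2 J hJ α G main gen N h, h3 J hJ α G main gen N h,
    h4 J hJ α G main gen N h⟩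

def ConsT1Statement : Prop :=
  ∀ (J : TS), J.WF → ∀ (α : Type u) (G : Finset α) (main : α → Prop) (gen : Finset α → Prop)
    (N : List α → Prop), Core J G main gen N → ConsT1 J G main gen N

/-- setting of Case A: `o` is the only hub -/
structure CaseA (J : TS) {α : Type u} (G : Finset α) (main : α → Prop) (gen : Finset α → Prop)
    (N : List α → Prop) (o : α) : Prop where
  core : Core J G main gen N
  cons : Cons J G main gen N
  oG : o ∈ G
  hub : ∀ t ∈ G, ¬ main t ↔ t = o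
  ex : ∃ x ∈ G, main x ∧ ∃ Z, gen Z ∧ ∀ t, t ∈ Z ↔ t = x

/-- `{x}` is generating -/
def gen1 {α : Type u} (gen : Finset α → Prop) (x : α) : Prop := ∃ Z, gen Z ∧ ∀ t, t ∈ Z ↔ t = x

/-- module A0: the hub is unique in Case A -/
def A0Statement : Prop :=
  ∀ (J : TS), J.WF → ∀ (α : Type u) (G : Finset α) (main : α → Prop) (gen : Finset α → Prop)
    (N : List α → Prop), Core J G main gen N → Cons J G main gen N →
    (∃ x ∈ G, main x ∧ gen1 gen x) → ∃ o, CaseA J G main gen N o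

/-- (A1) -/
def A1Statement : Prop :=
  ∀ (J : TS), J.WF → ∀ (α : Type u) (G : Finset α) (main : α → Prop) (gen : Finset α → Prop)
    (N : List α → Prop) (o : α), CaseA J G main gen N o →
    ∀ x ∈ G, main x → gen1 gen x → ∀ m, m + 2 ≤ J.L → N (blk o x m x) → m = 1

/-- the trichotomy of (A2) -/
def Tri (J : TS) {α : Type u} (gen : Finset α → Prop) (N : List α → Prop) (o x y : α) : Prop :=
  (∀ m, m + 2 ≤ J.L → N (blk o x m y) → m = 1) ∨
  (∃ k, J.inJ k = true ∧ J.succ k = false ∧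
    (∀ m, m + 2 ≤ J.L → N (blk o x m y) → m = J.p k) ∧
    (∀ m, m + 2 ≤ J.L → N (blk o y m x) → m = J.p (J.star k))) ∨
  (gen1 gen y ∧ ∃ k, J.inJ k = true ∧ J.succ k = false ∧
    (∀ m, m + 2 ≤ J.L → N (blk o y m x) → m = J.p k) ∧
    (∀ m, m + 2 ≤ J.L → N (blk o x m y) → m = J.p (J.star k)))

/-- (A2) -/
def A2Statement : Prop :=
  ∀ (J : TS), J.WF → ∀ (α : Type u) (G : Finset α) (main : α → Prop) (gen : Finset α → Prop)
    (N : List α → Prop) (o : α), CaseA J G main gen N o →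
    ∀ x ∈ G, main x → gen1 gen x → ∀ y ∈ G, main y → y ≠ x → Tri J gen N o x y

/-- the property of `t = t(x,y)` in (A3) -/
def IsTy (J : TS) {α : Type u} (gen : Finset α → Prop) (N : List α → Prop) (o x y : α) (t : ℕ) :
    Prop :=
  J.inJ t = true ∧ (∀ m, m + 2 ≤ J.L → (N (blk o x m y) ↔ m = J.p t)) ∧
    (∀ m, m + 2 ≤ J.L → (N (blk o y m x) ↔ m = J.p (J.star t))) ∧ (J.succ t = false ∨ gen1 gen y)

/-- (A3) -/
def A3Statement : Prop :=
  ∀ (J : TS), J.WF → ∀ (α : Type u) (G : Finset α) (main : α → Prop) (gen : Finset α → Prop)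
    (N : List α → Prop) (o : α), CaseA J G main gen N o →
    (∀ x ∈ G, main x → gen1 gen x → ∀ y ∈ G, main y → y ≠ x → Tri J gen N o x y) →
    ∀ x ∈ G, main x → gen1 gen x → ∀ y ∈ G, main y → y ≠ x → ∃ t, IsTy J gen N o x y t

/-- (A4) and the conclusion of Case A -/
def A4Statement : Prop :=
  ∀ (J : TS), J.WF → ∀ (α : Type u) (G : Finset α) (main : α → Prop) (gen : Finset α → Prop)
    (N : List α → Prop) (o : α), CaseA J G main gen N o → ConsT1 J G main gen N →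
    (∀ x ∈ G, main x → gen1 gen x → ∀ m, m + 2 ≤ J.L → N (blk o x m x) → m = 1) →
    (∀ x ∈ G, main x → gen1 gen x → ∀ y ∈ G, main y → y ≠ x → ∃ t, IsTy J gen N o x y t) →
    ∃ V : Finset α, V.Nonempty ∧ ∃ ty : V → V → ℕ, CLS J ty

/-- Case B -/
def CaseBStatement : Prop :=
  ∀ (J : TS), J.WF → ∀ (α : Type u) (G : Finset α) (main : α → Prop) (gen : Finset α → Prop)
    (N : List α → Prop), Core J G main gen N → Cons J G main gen N →
    ∃ x ∈ G, main x ∧ gen1 gen x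

/-- module B1: (B1) and (B2); `W` is a minimal generating set with a hub -/
def B1Statement : Prop :=
  ∀ (J : TS), J.WF → ∀ (α : Type u) (G : Finset α) (main : α → Prop) (gen : Finset α → Prop)
    (N : List α → Prop), Core J G main gen N → Cons J G main gen N →
    (∀ x ∈ G, main x → ¬ gen1 gen x) → ∀ W, gen W → W.card ≤ 5 →
    (∀ W', W' ⊆ W → gen W' → W' = W) → ∀ o ∈ W, ¬ main o → False

/-- module B3: (B3); `W` is a minimal generating set of mains -/
def B3Statement : Prop :=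
  ∀ (J : TS), J.WF → ∀ (α : Type u) (G : Finset α) (main : α → Prop) (gen : Finset α → Prop)
    (N : List α → Prop), Core J G main gen N → Cons J G main gen N →
    (∀ x ∈ G, main x → ¬ gen1 gen x) → ∀ W, gen W → W.card ≤ 5 →
    (∀ W', W' ⊆ W → gen W' → W' = W) → (∀ x ∈ W, main x) → False

theorem caseB_of (h1 : B1Statement.{u}) (h3 : B3Statement.{u}) : CaseBStatement.{u} := by
  classical
  intro J hJ α G main gen N hc hs
  by_contra hcon
  push Not at hcon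
  have hex : ∃ n, ∃ W : Finset α, gen W ∧ W.card ≤ 5 ∧ W.card = n := by
    obtain ⟨Y, hY, hY5⟩ := hc.gen5
    exact ⟨_, Y, hY, hY5, rfl⟩
  obtain ⟨W, hW, hW5, hWn⟩ := Nat.find_spec hex
  have hmin : ∀ W', W' ⊆ W → gen W' → W' = W := by
    intro W' hsub hgen
    refine Finset.eq_of_subset_of_card_le hsub ?_
    rw [hWn]
    exact Nat.find_le ⟨W', hgen, (Finset.card_le_card hsub).trans hW5, rfl⟩
  by_cases hall : ∀ x ∈ W, main x
  · exact h3 J hJ α G main gen N hc hs hcon W hW hW5 hmin hall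
  · push Not at hall
    obtain ⟨o, ho, hom⟩ := hall
    exact h1 J hJ α G main gen N hc hs hcon W hW hW5 hmin o ho hom

/-- the core: a closed legal structure exists -/
def CoreStatement : Prop :=
  ∀ (J : TS), J.WF → ∀ (α : Type u) (G : Finset α) (main : α → Prop) (gen : Finset α → Prop)
    (N : List α → Prop), Core J G main gen N →
    ∃ V : Finset α, V.Nonempty ∧ ∃ ty : V → V → ℕ, CLS J ty

theorem core_of (h0 : ConsStatement.{u}) (h1 : ConsT1Statement.{u}) (hA0 : A0Statement.{u})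
    (hA1 : A1Statement.{u}) (hA2 : A2Statement.{u}) (hA3 : A3Statement.{u})
    (hA4 : A4Statement.{u}) (hB : CaseBStatement.{u}) : CoreStatement.{u} := by
  intro J hJ α G main gen N h
  have hc := h0 J hJ α G main gen N h
  obtain ⟨o, ho⟩ := hA0 J hJ α G main gen N h hc (hB J hJ α G main gen N h hc)
  exact hA4 J hJ α G main gen N o ho (h1 J hJ α G main gen N h) (hA1 J hJ α G main gen N o ho)
    (hA3 J hJ α G main gen N o ho (hA2 J hJ α G main gen N o ho))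

/-- the result of section 5: local semigroups separate all words -/
def NDirStatement : Prop :=
  ∀ (J : TS), J.WF → (∀ (m : ℕ), 0 < m → ∀ ty : Fin m → Fin m → ℕ, ¬ CLS J ty) →
    ∀ (T : Type u) [Semigroup T], Loc J (J.L + 1) T → ∀ u : List T, u ≠ [] → SepT J u

/-! ### Section 4: the semigroup `T_A` -/

/-- number of hubs between two mains -/
noncomputable def tpx (J : TS) {V : Type} (ty : V → V → ℕ) (x y : V) : ℕ := by
  classical exact if x = y then 1 else J.p (ty x y)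

/-- legit words over `V + {o}` (`o` is `none`) -/
def Legit (J : TS) {V : Type} (ty : V → V → ℕ) (w : List (Option V)) : Prop :=
  w.length ≤ J.L ∧ ∀ x y k, blk none (some x) k (some y) <:+: w → k = tpx J ty x y

/-- the congruence that defines `T_A` -/
def Rel (J : TS) {V : Type} (ty : V → V → ℕ) (v w : List (Option V)) : Prop :=
  v = w ∨ (¬ Legit J ty v ∧ ¬ Legit J ty w ∧
    par (fun a : Option V => a ≠ none) v = par (fun a : Option V => a ≠ none) w)

/-- `u` is separated modulo `Rel` among the words over `Y` -/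
def SepR (J : TS) {V : Type} (ty : V → V → ℕ) (Y : Set (Option V)) (u : List (Option V)) : Prop :=
  ∃ τ, InFam J τ ∧ ∃ σ : Option V → List ℕ, (∀ g, σ g ≠ []) ∧
    ∀ v : List (Option V), v ≠ [] → (∀ g ∈ v, g ∈ Y) →
      τ.nf (v.flatMap σ) = τ.nf (u.flatMap σ) → Rel J ty v u

/-- (W) of Paper 4.1 -/
def WStatement : Prop :=
  ∀ (J : TS), J.WF → ∀ (m : ℕ) (ty : Fin m → Fin m → ℕ), CLS J ty →
    ∀ D : Finset (Option (Fin m)), D.card ≤ 6 →
      ∃ v : List (Option (Fin m)), Legit J ty v ∧ v.length = J.L ∧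
        par (fun a : Option (Fin m) => a ≠ none) v = 0 ∧ ∀ a, a ∈ v ↔ (a ∈ D ∨ a = none)

/-- Paper 4.1, parts (i) - (iv) -/
def Ta1Statement : Prop :=
  ∀ (J : TS), J.WF → ∀ (m : ℕ), 0 < m → ∀ (ty : Fin m → Fin m → ℕ), CLS J ty →
    ∃ u : List (Option (Fin m)), u ≠ [] ∧ ∀ (τ : Tm), InFam J τ →
      ∀ σ : Option (Fin m) → List ℕ, (∀ g, σ g ≠ []) →
      (∀ v, v ≠ [] → τ.nf (v.flatMap σ) = τ.nf (u.flatMap σ) → Rel J ty v u) →
      InFam' J τ ∧ ∃ c : Option (Fin m) → ℕ, (∀ g, τ.cols (c g) ∧ (g ≠ none ↔ c g % 2 = 1)) ∧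
        (∀ s ∈ τ.seeds, ∃ g, c g = s) ∧
        ∀ v, Legit J ty v → (∀ s ∈ τ.seeds, s ∈ v.map c) → ¬ τ.bad (v.map c)

/-- Paper 4.1, part (v) -/
def Ta2Statement : Prop :=
  ∀ (J : TS), J.WF → ∀ (m : ℕ) (ty : Fin m → Fin m → ℕ), CLS J ty → ∀ (τ : Tm), InFam' J τ →
    ∀ c : Option (Fin m) → ℕ, (∀ g, τ.cols (c g) ∧ (g ≠ none ↔ c g % 2 = 1)) →
    (∀ s ∈ τ.seeds, ∃ g, c g = s) →
    ∃ v, Legit J ty v ∧ (∀ s ∈ τ.seeds, s ∈ v.map c) ∧ τ.bad (v.map c)

/-- `T_A` is not in the variety -/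
def TaNotStatement : Prop :=
  ∀ (J : TS), J.WF → ∀ (m : ℕ), 0 < m → ∀ (ty : Fin m → Fin m → ℕ), CLS J ty →
    ∃ u : List (Option (Fin m)), u ≠ [] ∧ ¬ SepR J ty Set.univ u

theorem taNot_of (h1 : Ta1Statement) (h2 : Ta2Statement) : TaNotStatement := by
  intro J hJ m hm ty hty
  obtain ⟨u, hu, h⟩ := h1 J hJ m hm ty hty
  refine ⟨u, hu, ?_⟩
  rintro ⟨τ, hτ, σ, hσ, hsep⟩
  obtain ⟨hτ', c, hc1, hc2, hc3⟩ := h τ hτ σ hσ fun v hv hvu =>
    hsep v hv (fun _ _ => Set.mem_univ _) hvu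
  obtain ⟨v, hv1, hv2, hv3⟩ := h2 J hJ m ty hty τ hτ' c hc1 hc2
  exact hc3 v hv1 hv2 hv3

/-- letters of `X` and `o` -/
def Lx {V : Type} (X : Set V) : Set (Option V) := {g | ∀ x, g = some x → x ∈ X}

/-- Paper 4.2 -/
def TaSubStatement : Prop :=
  ∀ (J : TS), J.WF → ∀ (m : ℕ) (ty : Fin m → Fin m → ℕ), CLS J ty → Irred J ty →
    ∀ X : Set (Fin m), X ≠ Set.univ → ∀ u : List (Option (Fin m)), u ≠ [] →
      (∀ g ∈ u, g ∈ Lx X) → SepR J ty (Lx X) u

end Pool.Agent.Lib.MP_226ef1_lc.U
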