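import Pool.Agent.Lib.MP_226ef1_lc.U.Iface
import Pool.Agent.Lib.MP_226ef1_lc.U.Defs

/-!
# Interfaces: multiplication tables, the criterion, locality, computability
-/

set_option autoImplicit false

namespace Pool.Agent.Lib.MP_226ef1_lc.U

universe u v w

/-! ### Tables -/

/-- all words of length at most `n` over the letters `0, ..., cb - 1` -/
def allWords (cb : ℕ) : ℕ → List (List ℕ)
  | 0 => [[]]
  | n + 1 => [] :: (allWords cb n).flatMap fun w => (List.range cb).map fun c => c :: w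

/-- the elements of the template semigroup (all colours are smaller than `cb`) -/
noncomputable def Tm.elts (τ : Tm) (cb : ℕ) : List (List ℕ) :=
  (allWords cb τ.len).filter fun w => decide (w ≠ [] ∧ τ.nf w = w)

/-- the multiplication table of the template semigroup -/
noncomputable def Tm.tab (τ : Tm) (cb : ℕ) : Table :=
  (τ.elts cb).map fun x => (τ.elts cb).map fun y => (τ.elts cb).idxOf (τ.nf (x ++ y))

/-- bound for the colours -/
def cbd (J : TS) : ℕ := 4 * (J.bound + J.L) + 40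

/-- the family as a list -/
def famL (J : TS) : List Tm :=
  [T1 J, L3 J] ++ (List.range 5).map (fun r => G0 J (r + 1)) ++
    (List.range 4).map (fun r => G1 J (r + 1)) ++
    [(0, 2), (0, 3), (0, 4), (0, 5), (1, 2), (1, 3), (1, 4), (2, 2), (2, 3), (3, 2)].map
      (fun q : ℕ × ℕ => FF J q.1 q.2) ++
    (List.range 5).map (fun g => FR J (g + 1))

/-- the multiplication tables of the family -/
noncomputable def tabs (J : TS) : List Table := (famL J).map fun τ => τ.tab (cbd J)

/-- module FAML -/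
def FamLStatement : Prop :=
  ∀ J : TS, J.WF → (∀ τ, τ ∈ famL J ↔ InFam J τ) ∧ ∀ τ, InFam J τ → ∀ c, τ.cols c → c < cbd J

/-- module TAB -/
def TabStatement : Prop :=
  ∀ (τ : Tm), τ.WF → ∀ cb, 3 ≤ cb → (∀ c, τ.cols c → c < cb) →
    (τ.elts cb).Nodup ∧ (∀ w, w ∈ τ.elts cb ↔ w ≠ [] ∧ τ.nf w = w) ∧ (τ.tab cb).IsSemigroup ∧
      (τ.tab cb).length = (τ.elts cb).length ∧
      ∀ i j, i < (τ.elts cb).length → j < (τ.elts cb).length →
        (τ.elts cb).getD ((τ.tab cb).entry i j) [] =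
          τ.nf ((τ.elts cb).getD i [] ++ (τ.elts cb).getD j [])

/-- assembly of FAML and TAB: all tables are tables of semigroups -/
def TabsStatement : Prop := ∀ J : TS, J.WF → ∀ t ∈ tabs J, t.IsSemigroup

theorem tabs_of (h1 : FamLStatement) (h2 : FamWfStatement) (h3 : TabStatement) :
    TabsStatement := by
  intro J hJ t ht
  simp only [tabs, List.mem_map] at ht
  obtain ⟨τ, hτ, rfl⟩ := ht
  have h := ((h1 J hJ).1 τ).1 hτ
  exact (h3 τ (h2 J hJ τ h).1 (cbd J) (by unfold cbd; omega) ((h1 J hJ).2 τ h)).2.2.1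

/-! ### The criterion -/

/-- the word as a list -/
def toL {G : Type} (p : FreeSemigroup G) : List G := p.head :: p.tail

/-- module DICT: homomorphisms into the semigroups of the family and substitutions -/
def DictStatement : Prop :=
  ∀ (J : TS), J.WF → ∀ (h : ∀ t ∈ tabs J, t.IsSemigroup),
    (∀ (t : Table) (ht : t ∈ tabs J), ∃ τ, InFam J τ ∧ ∀ (G : Type)
      (φ : FreeSemigroup G →ₙ* t.Sgp (h t ht)), ∃ σ : G → List ℕ, (∀ g, σ g ≠ []) ∧
        ∀ p q, φ p = φ q ↔ τ.nf ((toL p).flatMap σ) = τ.nf ((toL q).flatMap σ)) ∧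
    (∀ τ, InFam J τ → ∃ (t : Table) (ht : t ∈ tabs J), ∀ (G : Type) (σ : G → List ℕ),
      (∀ g, σ g ≠ []) → ∃ φ : FreeSemigroup G →ₙ* t.Sgp (h t ht),
        ∀ p q, φ p = φ q ↔ τ.nf ((toL p).flatMap σ) = τ.nf ((toL q).flatMap σ))

/-- module IVA: members of the variety separate (finite or countable alphabets) -/
def IvaStatement : Prop :=
  ∀ (J : TS), J.WF → ∀ (h : ∀ t ∈ tabs J, t.IsSemigroup) (T : Type u) [Semigroup T],
    InGenerated (tabs J) h T → ∀ (G : Type) [Countable G] (f : G → T) (u : List G), u ≠ [] →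
      Sep J f Set.univ u

/-- module IVB: separation over a generating alphabet implies membership -/
def IvbStatement : Prop :=
  ∀ (J : TS), J.WF → ∀ (h : ∀ t ∈ tabs J, t.IsSemigroup) (T : Type u) [Semigroup T]
    (G : Type v) (f : G → T), (∀ t : T, ∃ w : List G, w ≠ [] ∧ prd (w.map f) = (t : WithOne T)) →
    (∀ u : List G, u ≠ [] → Sep J f Set.univ u) → InGenerated (tabs J) h T

/-- module FB: finite basis for alphabets with `n` letters -/
def FbStatement : Prop :=
  ∀ (J : TS), J.WF → ∀ (h : ∀ t ∈ tabs J, t.IsSemigroup) (n : ℕ), 0 < n →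
    ∃ B : Set (Word × Finset Word), B.Finite ∧
      (∀ b ∈ B, ∀ (t : Table) (ht : t ∈ tabs J), Satisfies (t.Sgp (h t ht)) b.1 (b.2 : Set Word)) ∧
      ∀ (T : Type u) [Semigroup T], (∀ b ∈ B, Satisfies T b.1 (b.2 : Set Word)) →
        ∀ (f : Fin n → T) (u : List (Fin n)), u ≠ [] → Sep J f Set.univ u

/-- module LOCB -/
def LocbStatement : Prop :=
  ∀ (J : TS) (n : ℕ) (T : Type u) [Semigroup T],
    (∀ (f : Fin n → T) (u : List (Fin n)), u ≠ [] → Sep J f Set.univ u) → Loc J n T

/-- direction (N) of the main reduction -/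
def MainNStatement : Prop :=
  ∀ (J : TS), J.WF → ∀ (h : ∀ t ∈ tabs J, t.IsSemigroup),
    (∀ (m : ℕ), 0 < m → ∀ ty : Fin m → Fin m → ℕ, ¬ CLS J ty) →
    FinitelyAxiomatisable.{u} (tabs J) h

/-- direction (H) of the main reduction; module MAINH (from TaNot, TaSub, IVA, IVB) -/
def MainHStatement : Prop :=
  ∀ (J : TS), J.WF → ∀ (h : ∀ t ∈ tabs J, t.IsSemigroup),
    (∀ N : ℕ, ∃ m, N < m ∧ ∃ ty : Fin m → Fin m → ℕ, CLS J ty ∧ Irred J ty) →
    ¬ FinitelyAxiomatisable.{u} (tabs J) h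

theorem mainN_of (hN : NDirStatement.{u}) (hb : IvbStatement.{u, u}) (hf : FbStatement.{u})
    (hl : LocbStatement.{u}) : MainNStatement.{u} := by
  intro J hJ h hno
  obtain ⟨B, hB, hB1, hB2⟩ := hf J hJ h (J.L + 1) (Nat.succ_pos _)
  refine ⟨B, hB, fun T _ => ⟨fun hT b hb' => hT b.1 _ (hB1 b hb'), fun hT => ?_⟩⟩
  have hloc : Loc J (J.L + 1) T := hl J (J.L + 1) T (hB2 T hT)
  refine hb J hJ h T T (fun t => t) (fun t => ⟨[t], by simp, by simp⟩) fun u hu => ?_
  exact hN J hJ hno T hloc u hu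

/-! ### Computability of the tables -/

/-- module COMPT -/
def ComptStatement : Prop :=
  ∀ J : ℕ → TS, (∀ n, (J n).WF) → Primrec (fun n => (J n).bound) →
    Primrec₂ (fun n k => (J n).inJ k) → Primrec₂ (fun n k => (J n).star k) →
    Primrec₂ (fun n k => (J n).succ k) →
    Primrec (fun q : ℕ × ℕ × ℕ × ℕ => (J q.1).legal q.2.1 q.2.2.1 q.2.2.2) →
    Primrec fun n => tabs (J n)

/-- module WORDSC: general computability lemma -/
def WordscStatement : Prop :=
  Primrec₂ allWords ∧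
  ∀ (len : ℕ → ℕ) (cols : ℕ → ℕ → Prop) (seeds : List ℕ) (bad : ℕ → List ℕ → Prop) (cb : ℕ → ℕ),
    Primrec len → PrimrecRel cols → PrimrecRel bad → Primrec cb →
      Primrec fun n => (⟨len n, cols n, seeds, bad n⟩ : Tm).tab (cb n)

end Pool.Agent.Lib.MP_226ef1_lc.U
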