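import Pool.Agent.Lib.MP_226ef1_lc.U.IfaceC

/-!
# Interfaces: machines, networks and the final theorem (Paper.md, section 6)
-/

set_option autoImplicit false

namespace Pool.Agent.Lib.MP_226ef1_lc.U

open Relation

universe u

/-! ### Rule systems on four stacks

A rule is a triple (source state, operation, target state). The operation `o` concerns the stack
`o % 4`; `o / 4` is the action: `0` nothing, `1` test for emptiness, `2 + a` (`a < 4`) push the
symbol `a`, `6 + a` (`a < 4`) pop the symbol `a`. -/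

/-- stack contents (top first) -/
abbrev Stks := Fin 4 → List ℕ

/-- the stack concerned by an operation -/
def opS (o : ℕ) : Fin 4 := ⟨o % 4, Nat.mod_lt _ (by decide)⟩

/-- the effect of an operation -/
def OpRel (o : ℕ) (S S' : Stks) : Prop :=
  (o / 4 = 0 ∧ S' = S) ∨ (o / 4 = 1 ∧ S (opS o) = [] ∧ S' = S) ∨
    (2 ≤ o / 4 ∧ o / 4 ≤ 5 ∧ S' = Function.update S (opS o) ((o / 4 - 2) :: S (opS o))) ∨
    (6 ≤ o / 4 ∧ o / 4 ≤ 9 ∧ S = Function.update S' (opS o) ((o / 4 - 6) :: S' (opS o)))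

/-- one step -/
def MStep (R : List (ℕ × ℕ × ℕ)) (c c' : ℕ × Stks) : Prop :=
  ∃ r ∈ R, r.1 = c.1 ∧ r.2.2 = c'.1 ∧ OpRel r.2.1 c.2 c'.2

/-- the state `qh` is reachable from the state `qs` with empty stacks -/
def MHalts (R : List (ℕ × ℕ × ℕ)) (qs qh : ℕ) : Prop :=
  ∃ S : Stks, ReflTransGen (MStep R) (qs, fun _ => []) (qh, S)

/-- evaluation of the program with number `n` at `0` -/
def diag : ℕ →. ℕ := fun n => (Denumerable.ofNat Nat.Partrec.Code n).eval 0

/-- module MACH: uniformly computable rule systems for the halting problem -/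
def MachStatement : Prop :=
  ∃ (R : ℕ → List (ℕ × ℕ × ℕ)) (qs qh : ℕ), Primrec R ∧ (∀ n, (qh, 0, qh) ∈ R n) ∧
    ∀ n, (diag n).Dom ↔ MHalts (R n) qs qh

/-! ### Entries -/

/-- order (`0`: smaller, `1`: equal, `2`: larger) -/
def eo (d : ℕ) : ℕ := d.unpair.1.unpair.1
/-- flag (`1`: cyclic successor) -/
def es (d : ℕ) : ℕ := d.unpair.1.unpair.2
/-- index of a rule -/
def er (d : ℕ) : ℕ := d.unpair.2.unpair.1
/-- contents of the four cells (`0`: beyond, `1`: first empty cell, `2 + a`: symbol `a`) -/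
def ec (k d : ℕ) : ℕ :=
  if k = 0 then d.unpair.2.unpair.2.unpair.1.unpair.1
  else if k = 1 then d.unpair.2.unpair.2.unpair.1.unpair.2
  else if k = 2 then d.unpair.2.unpair.2.unpair.2.unpair.1
  else d.unpair.2.unpair.2.unpair.2.unpair.2

/-- entries -/
def mkE (o s r c0 c1 c2 c3 : ℕ) : ℕ :=
  Nat.pair (Nat.pair o s) (Nat.pair r (Nat.pair (Nat.pair c0 c1) (Nat.pair c2 c3)))

/-- valid entries for a list of `m` rules -/
def inE (m d : ℕ) : Prop := eo d < 3 ∧ es d < 2 ∧ er d < m ∧ ∀ k < 4, ec k d < 6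

/-- horizontal condition for one stack -/
def hcell (x y : ℕ) : Prop := (2 ≤ x ∧ 1 ≤ y) ∨ (x ≤ 1 ∧ y = 0)

/-- vertical condition for the stack concerned: old cell `x`, new cell `y` -/
def vcell (act x y : ℕ) : Prop :=
  (act ≤ 1 ∧ y = x) ∨
  (2 ≤ act ∧ act ≤ 5 ∧ ((2 ≤ x ∧ y = x) ∨ (x = 1 ∧ y = act) ∨ (x = 0 ∧ y ≤ 1))) ∨
  (6 ≤ act ∧ act ≤ 9 ∧ ((2 ≤ x ∧ y = x) ∨ (x = act - 4 ∧ y = 1) ∨ (x ≤ 1 ∧ y = 0)))

/-- the rule with index `i` -/
def rul (R : List (ℕ × ℕ × ℕ)) (i : ℕ) : ℕ × ℕ × ℕ := R.getD i (0, 0, 0)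

/-- (K1) order -/
def K1 (a b c : ℕ) : Prop :=
  (eo a = 0 → eo b = 0 → eo c = 0) ∧ (eo a = 2 → eo b = 2 → eo c = 2) ∧
    (eo a = 1 → eo c = eo b) ∧ (eo b = 1 → eo c = eo a)

/-- (K2) successor -/
def K2 (a b c : ℕ) : Prop :=
  (es c = 1 → eo c = 0 → ¬ (eo a = 0 ∧ eo b = 0)) ∧
    (es c = 1 → eo c = 2 → eo a ≠ 0 ∧ eo b ≠ 0) ∧ (es c = 1 → eo c ≠ 1)

/-- (K4), first part: horizontal neighbours -/
def K4a (a b c : ℕ) : Prop :=
  es b = 1 → eo b = 0 → ∀ k < 4, hcell (ec k a) (ec k c)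

/-- (K4), second part: last and first cell of a row; `o` is the operation of the row -/
def K4b (o a b c : ℕ) : Prop :=
  es b = 1 → eo b = 2 → (∀ k < 4, ec k a < 2 ∧ ec k c ≠ 0) ∧ (o / 4 = 1 → ec (o % 4) c = 1)

/-- vertical condition: `o` is the operation of the upper row, old entry `c`, new entry `b` -/
def vert (o c b : ℕ) : Prop :=
  ∀ k < 4, (k = o % 4 → vcell (o / 4) (ec k c) (ec k b)) ∧ (k ≠ o % 4 → ec k b = ec k c)

/-- (K5), first part: vertical neighbours; `ra`, `rb` are the rules of the rows -/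
def K5a (ra rb : ℕ × ℕ × ℕ) (a b c : ℕ) : Prop :=
  es a = 1 → eo a = 0 → ra.2.2 = rb.1 ∧ vert ra.2.1 c b

/-- (K5), second part: last and first row -/
def K5b (ra rb : ℕ × ℕ × ℕ) (qs qh a b : ℕ) : Prop :=
  es a = 1 → eo a = 2 → ra.1 = qh ∧ rb.1 = qs ∧ ∀ k < 4, ec k b < 2

instance (m d : ℕ) : Decidable (inE m d) := by unfold inE; infer_instance
instance (x y : ℕ) : Decidable (hcell x y) := by unfold hcell; infer_instance
instance (a x y : ℕ) : Decidable (vcell a x y) := by unfold vcell; infer_instance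
instance (a b c : ℕ) : Decidable (K1 a b c) := by unfold K1; infer_instance
instance (a b c : ℕ) : Decidable (K2 a b c) := by unfold K2; infer_instance
instance (a b c : ℕ) : Decidable (K4a a b c) := by unfold K4a; infer_instance
instance (o a b c : ℕ) : Decidable (K4b o a b c) := by unfold K4b; infer_instance
instance (o b c : ℕ) : Decidable (vert o c b) := by unfold vert; infer_instance
instance (ra rb : ℕ × ℕ × ℕ) (a b c : ℕ) : Decidable (K5a ra rb a b c) := by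
  unfold K5a; infer_instance
instance (ra rb : ℕ × ℕ × ℕ) (qs qh a b : ℕ) : Decidable (K5b ra rb qs qh a b) := by
  unfold K5b; infer_instance

/-- the condition on `a = D(x,y)`, `b = D(y,z)`, `c = D(x,z)` -/
def KP (R : List (ℕ × ℕ × ℕ)) (qs qh a b c : ℕ) : Prop :=
  K1 a b c ∧ K2 a b c ∧ er a = er c ∧ K4a a b c ∧ K4b (rul R (er a)).2.1 a b c ∧
    K5a (rul R (er a)) (rul R (er b)) a b c ∧ K5b (rul R (er a)) (rul R (er b)) qs qh a b

instance (R : List (ℕ × ℕ × ℕ)) (qs qh a b c : ℕ) : Decidable (KP R qs qh a b c) := by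
  unfold KP; infer_instance

/-- networks -/
structure Net (R : List (ℕ × ℕ × ℕ)) (qs qh : ℕ) {V : Type} (D : V → V → ℕ) : Prop where
  mem : ∀ x y, inE R.length (D x y)
  eq : ∀ x y, eo (D x y) = 1 ↔ x = y
  nb : ∀ x y, x ≠ y → ¬ (es (D x y) = 1 ∧ es (D y x) = 1)
  kp : ∀ x y z, KP R qs qh (D x y) (D y z) (D x z)
  sc : ∀ x, ∃ y, y ≠ x ∧ es (D x y) = 1

/-! ### The type system of a rule system

A type is the code of the four entries `D(x,x), D(x,y), D(y,x), D(y,y)`. -/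

/-- entry `(x,x)` -/
def t11 (k : ℕ) : ℕ := k.unpair.1.unpair.1
/-- entry `(x,y)` -/
def t12 (k : ℕ) : ℕ := k.unpair.1.unpair.2
/-- entry `(y,x)` -/
def t21 (k : ℕ) : ℕ := k.unpair.2.unpair.1
/-- entry `(y,y)` -/
def t22 (k : ℕ) : ℕ := k.unpair.2.unpair.2
/-- code of a type -/
def mkTy (a b c d : ℕ) : ℕ := Nat.pair (Nat.pair a b) (Nat.pair c d)

/-- types -/
def inTy (m k : ℕ) : Prop :=
  inE m (t11 k) ∧ inE m (t12 k) ∧ inE m (t21 k) ∧ inE m (t22 k) ∧ eo (t11 k) = 1 ∧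
    eo (t22 k) = 1 ∧ eo (t12 k) ≠ 1 ∧ eo (t21 k) ≠ 1 ∧ ¬ (es (t12 k) = 1 ∧ es (t21 k) = 1)

instance (m k : ℕ) : Decidable (inTy m k) := by unfold inTy; infer_instance

/-- the entries of the matrix on `x_0, x_1, x_2` for `a = type(x_0,x_1)`, `b = type(x_1,x_2)`,
`c = type(x_2,x_0)` -/
def mat (a b c i j : ℕ) : ℕ :=
  if i = 0 then (if j = 0 then t11 a else if j = 1 then t12 a else t21 c)
  else if i = 1 then (if j = 0 then t21 a else if j = 1 then t22 a else t12 b)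
  else (if j = 0 then t12 c else if j = 1 then t21 b else t22 b)

/-- legal triples of types -/
def legalP (R : List (ℕ × ℕ × ℕ)) (qs qh a b c : ℕ) : Prop :=
  t22 a = t11 b ∧ t22 b = t11 c ∧ t22 c = t11 a ∧
    ∀ i < 3, ∀ j < 3, ∀ k < 3, KP R qs qh (mat a b c i j) (mat a b c j k) (mat a b c i k)

instance (R : List (ℕ × ℕ × ℕ)) (qs qh a b c : ℕ) : Decidable (legalP R qs qh a b c) := by
  unfold legalP; infer_instance

/-- square -/
def sq (n : ℕ) : ℕ := n * n

/-- the type system of a rule system -/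
def tsR (qs qh : ℕ) (R : List (ℕ × ℕ × ℕ)) : TS where
  bound := sq (sq (sq (sq (sq (sq (6 + R.length))))))
  inJ k := decide (inTy R.length k)
  star k := mkTy (t22 k) (t21 k) (t12 k) (t11 k)
  succ k := decide (es (t12 k) = 1)
  legal a b c := decide (legalP R qs qh a b c)

/-- module TSWF -/
def TswfStatement : Prop := ∀ qs qh R, (tsR qs qh R).WF

/-- module CLSNET: closed legal structures give networks -/
def ClsNetStatement : Prop :=
  ∀ (qs qh : ℕ) (R : List (ℕ × ℕ × ℕ)) (m : ℕ) (ty : Fin m → Fin m → ℕ), 0 < m →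
    CLS (tsR qs qh R) ty → ∃ D : Fin m → Fin m → ℕ, Net R qs qh D

/-- module NETCLS: networks give closed legal structures -/
def NetClsStatement : Prop :=
  ∀ (qs qh : ℕ) (R : List (ℕ × ℕ × ℕ)) (m : ℕ) (D : Fin m → Fin m → ℕ), 3 ≤ m →
    Net R qs qh D → (∀ x y, es (D x y) = 1 ↔ y.val = (x.val + 1) % m) →
    ∃ ty : Fin m → Fin m → ℕ, CLS (tsR qs qh R) ty ∧ Irred (tsR qs qh R) ty

/-- the order of a network, module NETORD: a network is a linear order with cyclic successor -/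
def NetOrdStatement : Prop :=
  ∀ (qs qh : ℕ) (R : List (ℕ × ℕ × ℕ)) (m : ℕ) (D : Fin m → Fin m → ℕ), 0 < m →
    Net R qs qh D → ∃ D' : Fin m → Fin m → ℕ, Net R qs qh D' ∧
      (∀ x y, eo (D' x y) = 0 ↔ x < y) ∧ (∀ x y, es (D' x y) = 1 ↔ y.val = (x.val + 1) % m)

/-- encoding of a stack in a row -/
def cellOf (l : List ℕ) (i : ℕ) : ℕ :=
  if i < l.length then 2 + l.reverse.getD i 0 else if i = l.length then 1 else 0

/-- module ROW: rows with the horizontal conditions encode stacks -/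
def RowStatement : Prop :=
  ∀ (m : ℕ) (f : ℕ → ℕ), 0 < m → f 0 ≠ 0 → f (m - 1) < 2 →
    (∀ i, i + 1 < m → hcell (f i) (f (i + 1))) →
    ∃ l : List ℕ, l.length < m ∧ (∀ i < m, f i = cellOf l i) 

/-- module VERT: the vertical conditions encode the actions -/
def VertStatement : Prop :=
  ∀ (m : ℕ) (l l' : List ℕ) (act : ℕ), l.length < m → l'.length < m →
    (∀ i < m, vcell act (cellOf l i) (cellOf l' i)) →
    (act ≤ 1 ∧ l' = l) ∨ (2 ≤ act ∧ act ≤ 5 ∧ l' = (act - 2) :: l) ∨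
      (6 ≤ act ∧ act ≤ 9 ∧ l = (act - 6) :: l')

/-- module VERT2: the converse -/
def Vert2Statement : Prop :=
  ∀ (l l' : List ℕ) (act : ℕ), (∀ a ∈ l, a < 4) → (∀ a ∈ l', a < 4) →
    ((act ≤ 1 ∧ l' = l) ∨ (2 ≤ act ∧ act ≤ 5 ∧ l' = (act - 2) :: l) ∨
      (6 ≤ act ∧ act ≤ 9 ∧ l = (act - 6) :: l')) →
    (∀ i, vcell act (cellOf l i) (cellOf l' i)) ∧ (∀ i, cellOf l i < 6) ∧ cellOf l 0 ≠ 0 ∧
      ∀ i, hcell (cellOf l i) (cellOf l (i + 1))

/-- module NETRUN: an ordered network gives a halting computation -/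
def NetRunStatement : Prop :=
  ∀ (qs qh : ℕ) (R : List (ℕ × ℕ × ℕ)) (m : ℕ) (D : Fin m → Fin m → ℕ), 0 < m →
    Net R qs qh D → (∀ x y, eo (D x y) = 0 ↔ x < y) →
    (∀ x y, es (D x y) = 1 ↔ y.val = (x.val + 1) % m) → MHalts R qs qh

/-- module RUNNET: a halting computation gives networks of all large sizes -/
def RunNetStatement : Prop :=
  ∀ (qs qh : ℕ) (R : List (ℕ × ℕ × ℕ)), (qh, 0, qh) ∈ R → MHalts R qs qh →
    ∃ L : ℕ, ∀ m, L ≤ m → ∃ D : Fin m → Fin m → ℕ, Net R qs qh D ∧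
      ∀ x y, es (D x y) = 1 ↔ y.val = (x.val + 1) % m

/-- module TSPR: computability of the type systems -/
def TsprStatement : Prop :=
  ∀ (qs qh : ℕ) (R : ℕ → List (ℕ × ℕ × ℕ)), Primrec R →
    Primrec (fun n => (tsR qs qh (R n)).bound) ∧ Primrec₂ (fun n k => (tsR qs qh (R n)).inJ k) ∧
    Primrec₂ (fun n k => (tsR qs qh (R n)).star k) ∧
    Primrec₂ (fun n k => (tsR qs qh (R n)).succ k) ∧
    Primrec (fun q : ℕ × ℕ × ℕ × ℕ => (tsR qs qh (R q.1)).legal q.2.1 q.2.2.1 q.2.2.2)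

/-- the final theorem: no algorithm decides finite axiomatisability -/
def FinalStatement : Prop :=
  ¬ ∃ f : List Table → Bool, Computable f ∧
    ∀ (L : List Table) (hL : ∀ t ∈ L, t.IsSemigroup),
      f L = true ↔ FinitelyAxiomatisable.{u} L hL

/-- module DIAG -/
def DiagStatement : Prop :=
  ∀ f : ℕ → Bool, Computable f → (∀ n, f n = true ↔ ¬ (diag n).Dom) → False

theorem final_of (hM : MachStatement) (hT : TswfStatement) (h1 : ClsNetStatement)
    (h2 : NetClsStatement) (h3 : NetOrdStatement) (h4 : NetRunStatement) (h5 : RunNetStatement)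
    (hP : TsprStatement) (hC : ComptStatement) (hS : TabsStatement) (hN : MainNStatement.{u})
    (hH : MainHStatement.{u}) (hD : DiagStatement) : FinalStatement.{u} := by
  rintro ⟨f, hf, hfL⟩
  obtain ⟨R, qs, qh, hR, hidle, hhalt⟩ := hM
  let J : ℕ → TS := fun n => tsR qs qh (R n)
  have hJ : ∀ n, (J n).WF := fun n => hT qs qh (R n)
  obtain ⟨p1, p2, p3, p4, p5⟩ := hP qs qh R hR
  have hc : Primrec fun n => tabs (J n) := hC J hJ p1 p2 p3 p4 p5
  refine hD (fun n => f (tabs (J n))) (hf.comp hc.to_comp) fun n => ?_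
  have hs : ∀ t ∈ tabs (J n), t.IsSemigroup := hS (J n) (hJ n)
  rw [hfL (tabs (J n)) hs]
  constructor
  · intro hfa hdom
    have hr := (hhalt n).1 hdom
    obtain ⟨L, hL⟩ := h5 qs qh (R n) (hidle n) hr
    refine hH (J n) (hJ n) hs (fun N => ?_) hfa
    obtain ⟨D, hD1, hD2⟩ := hL (N + L + 3) (by omega)
    obtain ⟨ty, hty⟩ := h2 qs qh (R n) (N + L + 3) D (by omega) hD1 hD2
    exact ⟨N + L + 3, by omega, ty, hty⟩
  · intro hnd
    refine hN (J n) (hJ n) hs fun m hm ty hty => hnd ?_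
    obtain ⟨D, hD⟩ := h1 qs qh (R n) m ty hm hty
    obtain ⟨D', hD1, hD2, hD3⟩ := h3 qs qh (R n) m D hm hD
    exact (hhalt n).2 (h4 qs qh (R n) m D' hm hD1 hD2 hD3)

end Pool.Agent.Lib.MP_226ef1_lc.U
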